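import Mathlib

set_option autoImplicit false

open Topology Filter

namespace Pool.Agent.Results.MP_a2c218_gt.OmegaNotK

/-- An `ω`-cover: a family of open sets, not containing the whole space, such that every finite set
is contained in some member. -/
def IsOmegaCover {X : Type} [TopologicalSpace X] (𝒰 : Set (Set X)) : Prop :=
  (∀ U ∈ 𝒰, IsOpen U) ∧ Set.univ ∉ 𝒰 ∧ ∀ F : Set X, F.Finite → ∃ U ∈ 𝒰, F ⊆ U

/-- A `k`-cover: a family of open sets, not containing the whole space, such that every compact set
is contained in some member. -/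
def IsKCover {X : Type} [TopologicalSpace X] (𝒰 : Set (Set X)) : Prop :=
  (∀ U ∈ 𝒰, IsOpen U) ∧ Set.univ ∉ 𝒰 ∧ ∀ K : Set X, IsCompact K → ∃ U ∈ 𝒰, K ⊆ U

/-- `ω`-Lindelof: every `ω`-cover contains a countable subfamily that is an `ω`-cover. -/
def OmegaLindelof (X : Type) [TopologicalSpace X] : Prop :=
  ∀ 𝒰 : Set (Set X), IsOmegaCover 𝒰 → ∃ 𝒱 ⊆ 𝒰, 𝒱.Countable ∧ IsOmegaCover 𝒱

/-- `k`-Lindelof: every `k`-cover contains a countable subfamily that is a `k`-cover. -/
def KLindelof (X : Type) [TopologicalSpace X] : Prop :=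
  ∀ 𝒰 : Set (Set X), IsKCover 𝒰 → ∃ 𝒱 ⊆ 𝒰, 𝒱.Countable ∧ IsKCover 𝒱

/-- Every countable space is `ω`-Lindelof. -/
theorem omegaLindelof_of_countable (X : Type) [TopologicalSpace X] [Countable X] :
    OmegaLindelof X := by
  intro 𝒰 h𝒰
  have hch : ∀ F : Finset X, ∃ U ∈ 𝒰, (F : Set X) ⊆ U := fun F => h𝒰.2.2 _ F.finite_toSet
  choose U hU hFU using hch
  refine ⟨Set.range U, ?_, Set.countable_range U, ?_, ?_, ?_⟩
  · rintro _ ⟨F, rfl⟩
    exact hU F
  · rintro _ ⟨F, rfl⟩
    exact h𝒰.1 _ (hU F)
  · rintro ⟨F, hF⟩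
    exact h𝒰.2.1 (hF ▸ hU F)
  · intro F hF
    refine ⟨U hF.toFinset, ⟨_, rfl⟩, ?_⟩
    have := hFU hF.toFinset
    rwa [hF.coe_toFinset] at this

/-- The node of length `n` on the branch `x`. -/
def pre (x : ℕ → Bool) (n : ℕ) : List Bool := (List.range n).map x

theorem length_pre (x : ℕ → Bool) (n : ℕ) : (pre x n).length = n := by simp [pre]

theorem pre_eq_iff (x y : ℕ → Bool) (n : ℕ) : pre x n = pre y n ↔ ∀ i < n, x i = y i := by
  simp [pre]

theorem pre_eq_of_le {x y : ℕ → Bool} {m n : ℕ} (hmn : m ≤ n) (h : pre x n = pre y n) :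
    pre x m = pre y m := by
  rw [pre_eq_iff] at h ⊢
  exact fun i hi => h i (lt_of_lt_of_le hi hmn)

theorem pre_injective (x : ℕ → Bool) : Function.Injective (pre x) := by
  intro m n h
  have := congrArg List.length h
  rwa [length_pre, length_pre] at this

/-- The space: the nodes of the binary tree and one further point `none`. -/
def Space : Type := Option (List Bool)

/-- The further point. -/
def pt : Space := (none : Option (List Bool))

/-- A node as a point of the space. -/
def nd (s : List Bool) : Space := (some s : Option (List Bool))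

/-- Nodes are isolated, and the open neighbourhoods of the further point are the sets that contain
it and all but finitely many nodes of every branch. -/
instance : TopologicalSpace Space where
  IsOpen U := pt ∈ U → ∀ x : ℕ → Bool, {n : ℕ | nd (pre x n) ∉ U}.Finite
  isOpen_univ := by
    intro _ x
    convert Set.finite_empty
    ext n
    simp
  isOpen_inter := by
    intro U V hU hV h x
    refine ((hU h.1 x).union (hV h.2 x)).subset ?_
    intro n hn
    by_cases hnU : nd (pre x n) ∈ U
    · right
      intro hnV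
      exact hn ⟨hnU, hnV⟩
    · left
      exact hnU
  isOpen_sUnion := by
    rintro S hS ⟨U, hUS, hU⟩ x
    refine (hS U hUS hU x).subset ?_
    intro n hn hnU
    exact hn ⟨U, hUS, hnU⟩

theorem isOpen_iff (U : Set Space) :
    IsOpen U ↔ (pt ∈ U → ∀ x : ℕ → Bool, {n : ℕ | nd (pre x n) ∉ U}.Finite) := Iff.rfl

theorem nd_injective : Function.Injective nd := fun _ _ h => Option.some_injective _ h

theorem nd_ne_pt (s : List Bool) : nd s ≠ pt := fun h => Option.some_ne_none _ h

theorem cases_space (z : Space) : z = pt ∨ ∃ s, z = nd s := by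
  rcases (z : Option (List Bool)) with _ | s
  · exact Or.inl rfl
  · exact Or.inr ⟨s, rfl⟩

instance : Countable Space := inferInstanceAs (Countable (Option (List Bool)))

theorem isOpen_of_notMem {U : Set Space} (h : pt ∉ U) : IsOpen U := by
  rw [isOpen_iff]
  intro h'
  exact absurd h' h

instance : T1Space Space := by
  refine ⟨fun z => ?_⟩
  rw [← isOpen_compl_iff, isOpen_iff]
  intro _ x
  rcases cases_space z with rfl | ⟨s, rfl⟩
  · convert Set.finite_empty
    ext n
    simp [nd_ne_pt]
  · refine Set.Subsingleton.finite ?_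
    intro m hm n hn
    simp only [Set.mem_compl_iff, Set.mem_singleton_iff, not_not] at hm hn
    exact pre_injective x (nd_injective (hm.trans hn.symm))

instance : NormalSpace Space := by
  refine ⟨fun s t hs ht hst => ?_⟩
  by_cases h : pt ∈ s
  · have ht' : pt ∉ t := fun h' => Set.disjoint_left.1 hst h h'
    exact ⟨tᶜ, t, ht.isOpen_compl, isOpen_of_notMem ht', hst.subset_compl_right, subset_rfl,
      disjoint_compl_left⟩
  · exact ⟨s, sᶜ, isOpen_of_notMem h, hs.isOpen_compl, subset_rfl, hst.symm.subset_compl_right,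
      disjoint_compl_right⟩

/-- The set of nodes of length at least `N` that leave the finite family `F` of branches (at their
last step, if their length is bigger than `N`). -/
def leave (F : Set (ℕ → Bool)) (N : ℕ) : Set (List Bool) :=
  {s | N ≤ s.length ∧ (∀ x ∈ F, s ≠ pre x s.length) ∧
    (s.length = N ∨ ∃ x ∈ F, s.dropLast = pre x (s.length - 1))}

theorem dropLast_pre (x : ℕ → Bool) (n : ℕ) : (pre x n).dropLast = pre x (n - 1) := by
  rcases n with _ | n
  · simp [pre]
  · simp [pre, List.range_succ]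

theorem pre_mem_leave_iff (F : Set (ℕ → Bool)) (N n : ℕ) (z : ℕ → Bool) :
    pre z n ∈ leave F N ↔ N ≤ n ∧ (∀ x ∈ F, pre z n ≠ pre x n) ∧
      (n = N ∨ ∃ x ∈ F, pre z (n - 1) = pre x (n - 1)) := by
  simp only [leave, Set.mem_ofPred_eq, length_pre, dropLast_pre]

theorem leave_subsingleton (F : Set (ℕ → Bool)) (N : ℕ) (z : ℕ → Bool) :
    {n : ℕ | pre z n ∈ leave F N}.Subsingleton := by
  have key : ∀ m n : ℕ, pre z m ∈ leave F N → pre z n ∈ leave F N → ¬ m < n := by
    intro m n hm hn hmn
    rw [pre_mem_leave_iff] at hm hn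
    rcases hn.2.2 with h | ⟨x, hx, hxn⟩
    · have := hm.1
      omega
    · exact hm.2.1 x hx (pre_eq_of_le (by omega) hxn)
  intro m hm n hn
  have h1 := key m n hm hn
  have h2 := key n m hn hm
  omega

theorem exists_mem_leave (F : Set (ℕ → Bool)) (hF : F.Finite) (N : ℕ) (z : ℕ → Bool)
    (hz : z ∉ F) : ∃ n, pre z n ∈ leave F N := by
  classical
  have hex : ∃ n, N ≤ n ∧ ∀ x ∈ F, pre z n ≠ pre x n := by
    have h1 : ∀ x ∈ F, ∃ i, z i ≠ x i := by
      intro x hx
      by_contra hcon
      push Not at hcon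
      exact hz ((funext hcon : z = x) ▸ hx)
    choose! g hg using h1
    obtain ⟨M, hM⟩ := (hF.image g).bddAbove
    refine ⟨max N (M + 1), le_max_left _ _, ?_⟩
    intro x hx heq
    rw [pre_eq_iff] at heq
    have h2 : g x ≤ M := hM ⟨x, hx, rfl⟩
    exact hg x hx (heq (g x) (lt_of_lt_of_le (Nat.lt_succ_of_le h2) (le_max_right _ _)))
  refine ⟨Nat.find hex, ?_⟩
  rw [pre_mem_leave_iff]
  refine ⟨(Nat.find_spec hex).1, (Nat.find_spec hex).2, ?_⟩
  by_cases h : Nat.find hex = N
  · exact Or.inl h
  · right
    have h1 := (Nat.find_spec hex).1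
    have h2 := Nat.find_min hex (m := Nat.find hex - 1) (by omega)
    push Not at h2
    exact h2 (by omega)

/-- The open set attached to a finite family of branches and a natural number. -/
def nbhd (F : Set (ℕ → Bool)) (N : ℕ) : Set Space := (nd '' leave F N)ᶜ

theorem isOpen_nbhd (F : Set (ℕ → Bool)) (N : ℕ) : IsOpen (nbhd F N) := by
  rw [isOpen_iff]
  intro _ x
  refine (leave_subsingleton F N x).finite.subset ?_
  intro n hn
  simp only [nbhd, Set.mem_ofPred_eq, Set.mem_compl_iff, not_not] at hn
  obtain ⟨s, hs, hs'⟩ := hn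
  have := nd_injective hs'
  subst this
  exact hs

/-- A compact set meets only finitely many nodes of a set that has finitely many nodes on every
branch. -/
theorem finite_of_compact {K : Set Space} (hK : IsCompact K) (C : Set (List Bool))
    (hC : ∀ s ∈ C, nd s ∈ K) (hfin : ∀ x : ℕ → Bool, {n : ℕ | pre x n ∈ C}.Finite) :
    C.Finite := by
  classical
  let W : Option C → Set Space := fun o => o.elim (nd '' C)ᶜ (fun s => {nd s.1})
  have hWo : ∀ o, IsOpen (W o) := by
    intro o
    rcases o with _ | s
    · change IsOpen (nd '' C)ᶜ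
      rw [isOpen_iff]
      intro _ x
      refine (hfin x).subset ?_
      intro n hn
      simp only [Set.mem_ofPred_eq, Set.mem_compl_iff, not_not] at hn
      obtain ⟨s, hs, hs'⟩ := hn
      have := nd_injective hs'
      subst this
      exact hs
    · exact isOpen_of_notMem (fun h => nd_ne_pt s.1 (Set.mem_singleton_iff.1 h).symm)
  have hcov : K ⊆ ⋃ o, W o := by
    intro z _
    rw [Set.mem_iUnion]
    by_cases hz : z ∈ nd '' C
    · obtain ⟨s, hs, rfl⟩ := hz
      exact ⟨some ⟨s, hs⟩, rfl⟩
    · exact ⟨none, hz⟩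
  obtain ⟨t, ht⟩ := hK.elim_finite_subcover W hWo hcov
  have hsub : C ⊆ (fun o : Option C => o.elim [] (fun s => s.1)) '' (t : Set (Option C)) := by
    intro s hs
    have h1 := ht (hC s hs)
    rw [Set.mem_iUnion₂] at h1
    obtain ⟨o, ho, ho'⟩ := h1
    rcases o with _ | s'
    · exact absurd ⟨s, hs, rfl⟩ ho'
    · refine ⟨some s', ho, ?_⟩
      exact (nd_injective (Set.mem_singleton_iff.1 ho')).symm
  exact (t.finite_toSet.image _).subset hsub

/-- Every compact set is contained in one of the basic sets. -/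
theorem exists_nbhd_of_compact {K : Set Space} (hK : IsCompact K) :
    ∃ F : Set (ℕ → Bool), F.Finite ∧ ∃ N : ℕ, K ⊆ nbhd F N := by
  classical
  set C : Set (List Bool) := {s | nd s ∈ K} with hCdef
  set B : Set (ℕ → Bool) := {x | {n : ℕ | pre x n ∈ C}.Infinite} with hBdef
  have hB : B.Finite := by
    by_contra hinf
    obtain ⟨y, hy⟩ := Set.Infinite.exists_accPt_principal (s := B) hinf
    rw [accPt_iff_nhds] at hy
    have hch : ∀ n : ℕ, ∃ s ∈ C, n ≤ s.length ∧ s.take n = pre y n ∧ s ≠ pre y s.length := by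
      intro n
      have hnb : {x : ℕ → Bool | ∀ i < n, x i = y i} ∈ 𝓝 y := by
        have hopen : IsOpen {x : ℕ → Bool | ∀ i < n, x i = y i} := by
          have : {x : ℕ → Bool | ∀ i < n, x i = y i} =
              ⋂ i ∈ Finset.range n, (fun x : ℕ → Bool => x i) ⁻¹' {y i} := by
            ext x
            simp
          rw [this]
          exact isOpen_biInter_finset fun i _ =>
            (isOpen_discrete ({y i} : Set Bool)).preimage (continuous_apply i)
        exact hopen.mem_nhds (by simp)
      obtain ⟨x, ⟨hx1, hx2⟩, hxy⟩ := hy _ hnb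
      have hne : ∃ i, x i ≠ y i := by
        by_contra hcon
        push Not at hcon
        exact hxy (funext hcon)
      obtain ⟨i, hi⟩ := hne
      obtain ⟨m, hm, hmn⟩ := (hx2 : {n : ℕ | pre x n ∈ C}.Infinite).exists_gt (max n i)
      refine ⟨pre x m, hm, ?_, ?_, ?_⟩
      · rw [length_pre]
        exact (le_max_left _ _).trans hmn.le
      · have hnm : n ≤ m := (le_max_left _ _).trans hmn.le
        rw [pre, ← List.map_take, List.take_range, min_eq_left hnm]
        exact (pre_eq_iff x y n).2 hx1
      · rw [length_pre, Ne, pre_eq_iff]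
        intro h
        exact hi (h i (lt_of_le_of_lt (le_max_right _ _) hmn))
    choose s hsC hsn hst hsy using hch
    have hfinite : (Set.range s).Finite := by
      apply finite_of_compact hK (Set.range s)
      · rintro _ ⟨n, rfl⟩
        exact hsC n
      · intro z
        by_cases hzy : z = y
        · subst hzy
          convert Set.finite_empty
          ext n
          simp only [Set.mem_ofPred_eq, Set.mem_range, Set.mem_empty_iff_false, iff_false,
            not_exists]
          intro k hk
          apply hsy k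
          rw [hk, length_pre]
        · have hne : ∃ i, z i ≠ y i := by
            by_contra hcon
            push Not at hcon
            exact hzy (funext hcon)
          obtain ⟨i, hi⟩ := hne
          refine ((Set.finite_Iic i).image fun k => (s k).length).subset ?_
          rintro n ⟨k, hk⟩
          refine ⟨k, ?_, ?_⟩
          · rw [Set.mem_Iic]
            by_contra hik
            push Not at hik
            have h1 := hst k
            have h2 := hsn k
            rw [hk] at h1 h2
            rw [length_pre] at h2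
            rw [pre, ← List.map_take, List.take_range, min_eq_left h2] at h1
            exact hi (((pre_eq_iff z y k).1 h1) i hik)
          · change (s k).length = n
            rw [hk, length_pre]
    obtain ⟨M, hM⟩ := (hfinite.image List.length).bddAbove
    have h1 := hM ⟨s (M + 1), ⟨M + 1, rfl⟩, rfl⟩
    have h2 := hsn (M + 1)
    omega
  have hC' : {s ∈ C | ∀ x ∈ B, s ≠ pre x s.length}.Finite := by
    apply finite_of_compact hK
    · intro s hs
      exact hs.1
    · intro z
      by_cases hz : z ∈ B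
      · convert Set.finite_empty
        ext n
        simp only [Set.mem_ofPred_eq, Set.mem_empty_iff_false, iff_false]
        rintro ⟨-, h⟩
        exact h z hz (by rw [length_pre])
      · have h1 : {n : ℕ | pre z n ∈ C}.Finite := by
          by_contra h2
          exact hz h2
        exact h1.subset fun n hn => hn.1
  obtain ⟨M, hM⟩ := (hC'.image List.length).bddAbove
  refine ⟨B, hB, M + 1, ?_⟩
  intro z hz
  rintro ⟨s, hs, rfl⟩
  have h1 : s ∈ {s ∈ C | ∀ x ∈ B, s ≠ pre x s.length} := ⟨hz, hs.2.1⟩
  have h2 := hM ⟨s, h1, rfl⟩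
  have h3 := hs.1
  omega

/-- A branch together with the further point is compact. -/
theorem isCompact_branch (z : ℕ → Bool) :
    IsCompact (insert pt (Set.range fun n => nd (pre z n))) := by
  apply Filter.Tendsto.isCompact_insert_range
  rw [tendsto_nhds]
  intro U hU hpt
  rw [isOpen_iff] at hU
  have := hU hpt z
  rw [← Nat.cofinite_eq_atTop, Filter.mem_cofinite]
  exact this

/-- The basic `k`-cover. -/
def basicCover : Set (Set Space) := {U | ∃ F : Set (ℕ → Bool), F.Finite ∧ ∃ N, U = nbhd F N}

theorem isKCover_basicCover : IsKCover basicCover := by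
  refine ⟨?_, ?_, ?_⟩
  · rintro U ⟨F, _, N, rfl⟩
    exact isOpen_nbhd F N
  · rintro ⟨F, hF, N, hU⟩
    obtain ⟨z, hz⟩ := hF.exists_notMem
    obtain ⟨n, hn⟩ := exists_mem_leave F hF N z hz
    have : nd (pre z n) ∈ nbhd F N := hU ▸ Set.mem_univ _
    exact this ⟨_, hn, rfl⟩
  · intro K hK
    obtain ⟨F, hF, N, hN⟩ := exists_nbhd_of_compact hK
    exact ⟨_, ⟨F, hF, N, rfl⟩, hN⟩

/-- No subfamily of the basic `k`-cover with fewer than continuum many members is a `k`-cover. -/
theorem not_isKCover_of_lt (𝒱 : Set (Set Space)) (h𝒱 : 𝒱 ⊆ basicCover)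
    (hcard : Cardinal.mk 𝒱 < Cardinal.continuum) : ¬ IsKCover 𝒱 := by
  intro hcov
  have hch : ∀ V ∈ 𝒱, ∃ F : Set (ℕ → Bool), F.Finite ∧ ∃ N, V = nbhd F N := fun V hV => h𝒱 hV
  choose! F hF N hN using hch
  have hz : ∃ z : ℕ → Bool, z ∉ ⋃ V : 𝒱, F V := by
    by_contra hcon
    push Not at hcon
    have h1 : (⋃ V : 𝒱, F V) = Set.univ := Set.eq_univ_of_forall hcon
    have h2 : Cardinal.mk (⋃ V : 𝒱, F V) ≤ Cardinal.mk 𝒱 * ⨆ V : 𝒱, Cardinal.mk (F V) :=
      Cardinal.mk_iUnion_le _
    have h3 : (⨆ V : 𝒱, Cardinal.mk (F V)) ≤ Cardinal.aleph0 :=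
      ciSup_le' fun V => (hF V V.2).lt_aleph0.le
    have h4 : Cardinal.mk (⋃ V : 𝒱, F V) < Cardinal.continuum := by
      refine (h2.trans (mul_le_mul_right h3 _)).trans_lt ?_
      exact Cardinal.mul_lt_of_lt Cardinal.aleph0_le_continuum hcard Cardinal.aleph0_lt_continuum
    rw [h1, Cardinal.mk_univ] at h4
    have h5 : Cardinal.mk (ℕ → Bool) = Cardinal.continuum := by simp
    rw [h5] at h4
    exact lt_irrefl _ h4
  obtain ⟨z, hz⟩ := hz
  obtain ⟨V, hV, hKV⟩ := hcov.2.2 _ (isCompact_branch z)
  have hzV : z ∉ F V := by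
    intro h'
    exact hz (Set.mem_iUnion.2 ⟨⟨V, hV⟩, h'⟩)
  obtain ⟨n, hn⟩ := exists_mem_leave (F V) (hF V hV) (N V) z hzV
  have h1 : nd (pre z n) ∈ V := hKV (Set.mem_insert_of_mem _ ⟨n, rfl⟩)
  rw [hN V hV] at h1
  exact h1 ⟨_, hn, rfl⟩

/-- There is a countable, normal, Hausdorff space that is `ω`-Lindelof but has a `k`-cover none of
whose subfamilies with fewer than continuum many members is a `k`-cover; so it is not
`k`-Lindelof. -/
theorem result : ∃ (X : Type) (_ : TopologicalSpace X),
    Countable X ∧ T4Space X ∧ OmegaLindelof X ∧ ¬ KLindelof X ∧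
      ∃ 𝒰 : Set (Set X), IsKCover 𝒰 ∧
        ∀ 𝒱 ⊆ 𝒰, Cardinal.mk 𝒱 < Cardinal.continuum → ¬ IsKCover 𝒱 := by
  refine ⟨Space, inferInstance, inferInstance, {}, omegaLindelof_of_countable Space, ?_,
    basicCover, isKCover_basicCover, not_isKCover_of_lt⟩
  intro h
  obtain ⟨𝒱, h𝒱, hcount, hcov⟩ := h basicCover isKCover_basicCover
  exact not_isKCover_of_lt 𝒱 h𝒱 (hcount.le_aleph0.trans_lt Cardinal.aleph0_lt_continuum) hcov

end Pool.Agent.Results.MP_a2c218_gt.OmegaNotK
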